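import Pool.Agent.Helper58.SF.StA

/-!
# Project SF, module LCQ: the two sides of a line in an open subset of a level
-/

set_option autoImplicit false

namespace Pool.Agent.Helper26.SF

open Set Topology Pool.Agent.Helper13.TR Pool.Agent.Helper58.SF
open Pool.Agent.Helper13.TW (IsArc Spl IsSCC dch Chn Splt GT CSy MP Val LR MCell StARB StARX StSCL StUAR StINF StLIN StAC1 StSDM)

section core

variable {X : Type} [TopologicalSpace X]

/-- Splitting a null chain. -/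
private theorem nul_split (hSDA : StSDA) (l : Set X) (κ : Ch X 1)
    (hκ : κ ∈ Nul l 1) : ∃ ρ ∈ cin lᶜ 1, bd 0 ρ = bd 0 κ := by
  obtain ⟨ρ, hρ, τ, ⟨β, hβ⟩, hsum⟩ := Submodule.mem_sup.mp hκ
  refine ⟨ρ, hρ, ?_⟩
  rw [← hsum, map_add, ← hβ, (hSDA X).1 0 β, add_zero]

private theorem data (hMV : StMV) (hJOI : StJOI) (A₁ A₂ : Set X) (hA₁ : IsClosed A₁)
    (hA₂ : IsClosed A₂) (hP : PP A₂ 1) (ε : Ch X 2)
    (hε : ∀ e ∈ Cyc (A₁ ∩ A₂) 2, ∃ m : ℤ, e - m • ε ∈ Nul (A₁ ∩ A₂) 2)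
    (p q : X) (h : JoinedIn A₁ᶜ p q) (hp : p ∉ A₂) (hq : q ∉ A₂) :
    ∃ (κ : Ch X 1) (τ : Ch X 2) (m : ℤ),
      bd 0 κ = Finsupp.single (pt q) 1 - Finsupp.single (pt p) 1 ∧
      MVR A₁ A₂ 1 τ κ ∧ τ - m • ε ∈ Nul (A₁ ∩ A₂) 2 := by
  obtain ⟨κ, hκ, hb⟩ := (hJOI X A₁ᶜ).1 p q h
  have h1 : κ ∈ Nul A₁ 1 := Submodule.mem_sup_left hκ
  have h2 : κ ∈ Cyc A₂ 1 := by
    change bd 0 κ ∈ cin A₂ᶜ 0
    rw [hb]
    exact Submodule.sub_mem _ ((hJOI X A₂ᶜ).2.2.2.2 q hq) ((hJOI X A₂ᶜ).2.2.2.2 p hp)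
  obtain ⟨τ, hτ, hM⟩ := (hMV X A₁ A₂ hA₁ hA₂ 1).2.2.1 κ h1 (hP h2)
  obtain ⟨m, hm⟩ := hε τ hτ
  exact ⟨κ, τ, m, hb, hM, hm⟩

private theorem mvr_zero (A₁ A₂ : Set X) : MVR A₁ A₂ 1 0 0 := by
  refine ⟨0, 0, sub_zero 0, ?_, ?_⟩
  · rw [map_zero, sub_zero]
    exact Submodule.zero_mem _
  · rw [map_zero, sub_zero]
    exact Submodule.zero_mem _

private theorem core (hMV : StMV) (hJOI : StJOI) (hSDA : StSDA) (A₁ A₂ : Set X)
    (hA₁ : IsClosed A₁) (hA₂ : IsClosed A₂) (hP : PP A₂ 1) (ε : Ch X 2)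
    (hε : ∀ e ∈ Cyc (A₁ ∩ A₂) 2, ∃ m : ℤ, e - m • ε ∈ Nul (A₁ ∩ A₂) 2) (T : Set X)
    (hT : ∀ a b : X, JoinedIn (A₁ ∪ A₂)ᶜ a b → (a ∈ T ↔ b ∈ T)) (a₀ b₀ x y : X)
    (h0 : JoinedIn A₁ᶜ a₀ b₀) (ha₀ : a₀ ∉ A₂) (hb₀ : b₀ ∉ A₂) (ha₀T : a₀ ∈ T) (hb₀T : b₀ ∉ T)
    (hxy : JoinedIn A₁ᶜ x y) (hx : x ∉ A₂) (hy : y ∉ A₂) (hiff : x ∈ T ↔ y ∈ T) :
    JoinedIn (A₁ ∪ A₂)ᶜ x y := by
  have ev1 := fun (U : Set X) (z : X) => (hJOI X (A₁ ∪ A₂)ᶜ).2.2.1 U z
  have hnul : ∀ κ : Ch X 1, κ ∈ Nul (A₁ ∪ A₂) 1 → ev T (bd 0 κ) = 0 := by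
    intro κ hκ
    obtain ⟨ρ, hρ, he⟩ := nul_split hSDA (A₁ ∪ A₂) κ hκ
    rw [← he]
    exact (hJOI X (A₁ ∪ A₂)ᶜ).2.1 T hT ρ hρ
  obtain ⟨κ₀, τ₀, m₀, hb0, hM0, hm0⟩ := data hMV hJOI A₁ A₂ hA₁ hA₂ hP ε hε a₀ b₀ h0 ha₀ hb₀
  obtain ⟨κ, τ, m, hb1, hM1, hm1⟩ := data hMV hJOI A₁ A₂ hA₁ hA₂ hP ε hε x y hxy hx hy
  obtain ⟨mv1, -, -, mv4, -⟩ := hMV X A₁ A₂ hA₁ hA₂ 1
  have hMa := mv4 (-m₀) 0 0 τ κ (mvr_zero A₁ A₂) hM1
  have hMb := mv4 m _ _ τ₀ κ₀ hMa hM0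
  have hτ : (0 - (-m₀) • τ) - m • τ₀ ∈ Nul (A₁ ∩ A₂) 2 := by
    have : (0 - (-m₀) • τ) - m • τ₀ = m₀ • (τ - m • ε) - m • (τ₀ - m₀ • ε) := by
      rw [smul_sub, smul_sub, smul_smul, smul_smul, mul_comm m₀ m, neg_smul]
      abel
    rw [this]
    exact Submodule.sub_mem _ (Submodule.smul_mem _ _ hm1) (Submodule.smul_mem _ _ hm0)
  have h2 := hnul _ (mv1 _ _ hMb hτ)
  have h3 : ev T (bd 0 κ) = 0 := by
    rw [hb1, map_sub]
    by_cases hxT : x ∈ T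
    · rw [(ev1 T y).1 (hiff.mp hxT), (ev1 T x).1 hxT, sub_self]
    · rw [(ev1 T y).2 (fun h => hxT (hiff.mpr h)), (ev1 T x).2 hxT, sub_self]
  have h4 : ev T (bd 0 κ₀) = -1 := by
    rw [hb0, map_sub, (ev1 T b₀).2 hb₀T, (ev1 T a₀).1 ha₀T, zero_sub]
  have hmz : m = 0 := by
    rw [map_sub, map_sub, map_sub, map_sub, map_smul, map_smul, map_smul, map_smul, map_zero,
      map_zero, h3, h4, smul_zero, smul_eq_mul] at h2
    linarith
  rw [hmz, zero_smul, sub_zero] at hm1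
  obtain ⟨ρ, hρ, he⟩ := nul_split hSDA (A₁ ∪ A₂) κ (mv1 _ _ hM1 hm1)
  set T' : Set X := {z | JoinedIn (A₁ ∪ A₂)ᶜ x z} with hT'
  have hsat : ∀ a b : X, JoinedIn (A₁ ∪ A₂)ᶜ a b → (a ∈ T' ↔ b ∈ T') := by
    intro a b hab
    exact ⟨fun h => h.trans hab, fun h => h.trans hab.symm⟩
  have h5 := (hJOI X (A₁ ∪ A₂)ᶜ).2.1 T' hsat ρ hρ
  have hxA : x ∈ (A₁ ∪ A₂)ᶜ := by
    intro h
    rcases h with h | h
    · exact hxy.source_mem h
    · exact hx h
  have hxT' : x ∈ T' := JoinedIn.refl hxA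
  by_contra hcon
  have hyT' : y ∉ T' := hcon
  rw [he, hb1, map_sub, (ev1 T' y).2 hyT', (ev1 T' x).1 hxT'] at h5
  norm_num at h5

end core

section flow

variable {P : Type} [TopologicalSpace P] {r : P → ℝ} {R : ℝ → P → P}

private theorem stab (hF : Flow P r R) {t : ℝ} (ht : 0 < t) {O : Set P} {y : P}
    (hy : r y < t ∨ R t y ∈ O) {s : ℝ} (hs : 0 < s) : r (R s y) < t ∨ R t (R s y) ∈ O := by
  rcases lt_or_ge s t with h | h
  · left
    rw [hF.rR s y hs]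
    exact lt_of_le_of_lt (min_le_left _ _) h
  · rcases hy with hy | hy
    · left
      rw [hF.rR s y hs]
      exact lt_of_le_of_lt (min_le_right _ _) hy
    · right
      rw [hF.RR t s y ht h]
      exact hy

/-- the part of the space below or above the open subset `O` of the level `t` -/
private def QS (r : P → ℝ) (R : ℝ → P → P) (t : ℝ) (O : Set P) : Set P :=
  {y | r y < t ∨ R t y ∈ O}

private theorem isOpen_QS (hF : Flow P r R) {t : ℝ} (hc : Continuous (R t)) {O : Set P}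
    (hO : IsOpen O) : IsOpen (QS r R t O) := by
  have h1 : IsOpen {y : P | r y < t} := isOpen_lt hF.rc continuous_const
  have h2 : IsOpen (R t ⁻¹' O) := hO.preimage hc
  exact h1.union h2

open Classical in
/-- the restricted semiflow -/
private noncomputable def RQ (hF : Flow P r R) {t : ℝ} (ht : 0 < t) (O : Set P) (s : ℝ)
    (y : ↥(QS r R t O)) : ↥(QS r R t O) :=
  if hs : 0 < s then ⟨R s y.1, stab hF ht y.2 hs⟩ else y

private theorem RQ_val (hF : Flow P r R) {t : ℝ} (ht : 0 < t) (O : Set P) {s : ℝ} (hs : 0 < s)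
    (y : ↥(QS r R t O)) : ((RQ hF ht O s y : ↥(QS r R t O)) : P) = R s y.1 := by
  unfold RQ
  rw [dif_pos hs]

private theorem flowQ (hF : Flow P r R) {t : ℝ} (ht : 0 < t) (O : Set P) :
    Flow ↥(QS r R t O) (fun y => r y.1) (RQ hF ht O) where
  rc := hF.rc.comp continuous_subtype_val
  pos := fun y => hF.pos y.1
  lt := fun y => hF.lt y.1
  Rc := by
    rw [Topology.IsInducing.subtypeVal.continuousOn_iff]
    have h : ContinuousOn (fun p : ℝ × ↥(QS r R t O) => R p.1 (p.2 : P)) {p | 0 < p.1} :=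
      hF.Rc.comp (continuous_fst.prodMk (continuous_subtype_val.comp continuous_snd)).continuousOn
        (fun p hp => hp)
    exact h.congr (fun p hp => RQ_val hF ht O hp p.2)
  rR := by
    intro s y hs
    rw [RQ_val hF ht O hs]
    exact hF.rR s y.1 hs
  Rid := by
    intro s y h
    apply Subtype.ext
    rw [RQ_val hF ht O (lt_of_lt_of_le (hF.pos y.1) h)]
    exact hF.Rid s y.1 h
  RR := by
    intro s s' y hs hss
    apply Subtype.ext
    rw [RQ_val hF ht O hs, RQ_val hF ht O hs, RQ_val hF ht O (hs.trans_le hss)]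
    exact hF.RR s s' y.1 hs hss

/-- Lifting a path to a subspace. -/
private theorem lift_join {Q W : Set P} {a b : P} (h : JoinedIn W a b) (hWQ : W ⊆ Q)
    (B : Set ↥Q) (hWB : ∀ (w : P) (hw : w ∈ W), (⟨w, hWQ hw⟩ : ↥Q) ∈ B) :
    JoinedIn B (⟨a, hWQ h.source_mem⟩ : ↥Q) ⟨b, hWQ h.target_mem⟩ := by
  obtain ⟨γ, hγ⟩ := h
  exact ⟨{ toFun := fun u => ⟨γ u, hWQ (hγ u)⟩
           continuous_toFun := γ.continuous.subtype_mk _
           source' := Subtype.ext γ.source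
           target' := Subtype.ext γ.target }, fun u => hWB _ (hγ u)⟩

end flow

theorem hLCQ (hUPC : StUPC) (hBEX : StBEX) (hTUB : StTUB) (hCY3 : StCY3) (hOPN : StOPN)
    (hMV : StMV) (hJOI : StJOI) (_hMON : StMON) (hSDA : StSDA) (_hPSH : StPSH) (hFLW : StFLW)
    (hLPL : StLPL) : StLCQ := by
  intro P _ r R dg hSB t ht0 ht1 V₁ hV₁ ψ hψ T hT hab x y hx hy hxy hiff
  haveI := hSB.met
  letI := TopologicalSpace.metrizableSpaceMetric P
  haveI hT3 : T3Space P := inferInstance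
  have hF : Flow P r R := hSB.box.toFlow
  obtain ⟨O, hO, hOV⟩ := isOpen_induced_iff.1 hV₁
  have hmemV : ∀ v : ↥{y : P | r y = t}, v ∈ V₁ ↔ v.1 ∈ O := by
    intro v
    rw [← hOV]
    rfl
  have hcR : Continuous (R t) := (hFLW P r R hF).1 t ht0
  have hQ : IsOpen (QS r R t O) := isOpen_QS hF hcR hO
  -- the projection to the level
  have hpm : ∀ q : ↥(QS r R t O), t ≤ r q.1 → R t q.1 ∈ O := by
    intro q hq
    rcases q.2 with h | h
    · exact absurd h (not_lt.2 hq)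
    · exact h
  have hpr : ∀ q : P, t ≤ r q → r (R t q) = t := fun q hq => by
    rw [hF.rR t q ht0, min_eq_left hq]
  let prj : ∀ q : ↥(QS r R t O), t ≤ r q.1 → ↥V₁ := fun q hq =>
    ⟨⟨R t q.1, hpr q.1 hq⟩, (hmemV _).2 (hpm q hq)⟩
  have hprj : ∀ (q : ↥(QS r R t O)) (hq : t ≤ r q.1), (prj q hq).1.1 = R t q.1 :=
    fun q hq => rfl
  -- the inclusion of the level
  have hjm : ∀ v : ↥V₁, v.1.1 ∈ QS r R t O := by
    intro v
    right
    rw [hF.Rid t v.1.1 (le_of_eq v.1.2)]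
    exact (hmemV v.1).1 v.2
  let j : ↥V₁ → ↥(QS r R t O) := fun v => ⟨v.1.1, hjm v⟩
  have hjc : Continuous j :=
    (continuous_subtype_val.comp continuous_subtype_val).subtype_mk _
  have hjr : range j = {q : ↥(QS r R t O) | r q.1 = t} := by
    ext q
    constructor
    · rintro ⟨v, rfl⟩
      exact v.1.2
    · intro hq
      have hq' : r q.1 = t := hq
      refine ⟨⟨⟨q.1, hq'⟩, (hmemV _).2 ?_⟩, rfl⟩
      have h := hpm q (le_of_eq hq'.symm)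
      rw [hF.Rid t q.1 (le_of_eq hq')] at h
      exact h
  have hje : IsEmbedding ((Subtype.val : ↥(QS r R t O) → P) ∘ j) := by
    have h : IsEmbedding ((Subtype.val : ↥{y : P | r y = t} → P) ∘
        (Subtype.val : ↥V₁ → ↥{y : P | r y = t})) :=
      IsEmbedding.subtypeVal.comp IsEmbedding.subtypeVal
    exact h
  have hj : IsClosedEmbedding j := by
    refine ⟨IsEmbedding.of_comp hjc continuous_subtype_val hje, ?_⟩
    rw [hjr]
    exact isClosed_eq (hF.rc.comp continuous_subtype_val) continuous_const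
  have hjψ : IsClosedEmbedding (j ∘ ψ) := hj.comp hψ
  have hFQ := flowQ hF ht0 O
  haveI hmQ : TopologicalSpace.MetrizableSpace ↥(QS r R t O) := inferInstance
  have hHM : HM ↥(QS r R t O) := hOPN P (QS r R t O) hQ hSB.hm
  obtain ⟨ε, -, hε⟩ := hCY3 ↥(QS r R t O) hHM (j ∘ ψ) hjψ
  set A₁ : Set ↥(QS r R t O) := {q | r q.1 ≤ t} with hA₁
  set A₂ : Set ↥(QS r R t O) := UpS (fun q : ↥(QS r R t O) => r q.1) (RQ hF ht0 O) t
    (range (j ∘ ψ)) with hA₂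
  have hA₁c : IsClosed A₁ := isClosed_le (hF.rc.comp continuous_subtype_val) continuous_const
  have hA₂c : IsClosed A₂ := (hFLW _ _ _ hFQ).2.1 t _ ht0 hjψ.isClosed_range
  have hA₂m : ∀ (q : ↥(QS r R t O)) (hq : t ≤ r q.1), q ∈ A₂ ↔ prj q hq ∈ range ψ := by
    intro q hq
    constructor
    · rintro ⟨_, u, hu⟩
      refine ⟨u, ?_⟩
      have h1 := congrArg (fun z : ↥(QS r R t O) => (z : P)) hu
      have h2 : (ψ u).1.1 = R t q.1 := by
        have h3 := RQ_val hF ht0 O ht0 q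
        exact h1.trans h3
      exact Subtype.ext (Subtype.ext h2)
    · rintro ⟨u, hu⟩
      refine ⟨hq, u, ?_⟩
      apply Subtype.ext
      rw [RQ_val hF ht0 O ht0 q]
      show (ψ u).1.1 = R t q.1
      rw [hu]
  have hA₁₂ : A₁ ∩ A₂ = range (j ∘ ψ) := by
    ext q
    constructor
    · rintro ⟨h1, _, h3⟩
      rw [hFQ.Rid t q h1] at h3
      exact h3
    · intro hq
      obtain ⟨u, rfl⟩ := hq
      have h1 : r ((j ∘ ψ) u).1 = t := (ψ u).1.2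
      refine ⟨le_of_eq h1, ge_of_eq h1, ?_⟩
      rw [hFQ.Rid t _ (le_of_eq h1)]
      exact ⟨u, rfl⟩
  have hP : PP A₂ 1 := hTUB _ _ _ hFQ t _ 1 ht0
  rw [← hA₁₂] at hε
  -- joining points above the level
  haveI : LocallyPathConnectedSpace ↥{y : P | r y = t} := hLPL P r R dg hSB t ht0 ht1
  haveI : LocallyPathConnectedSpace ↥V₁ := hV₁.locallyPathConnectedSpace
  have hjn : ∀ p q : ↥V₁, Joined p q → ∃ (a b : ↥(QS r R t O)) (ha : t ≤ r a.1)
      (hb : t ≤ r b.1), prj a ha = p ∧ prj b hb = q ∧ JoinedIn A₁ᶜ a b := by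
    intro p q hpq
    have ho1 : IsOpen (Subtype.val '' (pathComponent p : Set ↥V₁)) :=
      hV₁.isOpenMap_subtype_val _ (IsOpen.pathComponent p)
    obtain ⟨O', hO', hOV'⟩ := isOpen_induced_iff.1 ho1
    set Vp : Set P := (fun v : ↥V₁ => v.1.1) '' (pathComponent p : Set ↥V₁) with hVp
    have hVO : Vp = O' ∩ {y | r y = t} := by
      ext w
      constructor
      · rintro ⟨v, hv, rfl⟩
        refine ⟨?_, v.1.2⟩
        have h1 : v.1 ∈ (Subtype.val ⁻¹' O' : Set ↥{y : P | r y = t}) := by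
          rw [hOV']
          exact ⟨v, hv, rfl⟩
        exact h1
      · rintro ⟨h1, h2⟩
        have h3 : (⟨w, h2⟩ : ↥{y : P | r y = t}) ∈
            (Subtype.val ⁻¹' O' : Set ↥{y : P | r y = t}) := h1
        rw [hOV'] at h3
        obtain ⟨v, hv, hvw⟩ := h3
        refine ⟨v, hv, ?_⟩
        show v.1.1 = w
        rw [hvw]
    have hVpc : IsPathConnected Vp :=
      isPathConnected_pathComponent.image (continuous_subtype_val.comp continuous_subtype_val)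
    obtain ⟨-, hW⟩ := hUPC P r R dg hSB t ht0 ht1 Vp ⟨O', hO', hVO⟩ hVpc
    have hp1 : r p.1.1 = t := p.1.2
    have hq1 : r q.1.1 = t := q.1.2
    obtain ⟨a, ha, hra⟩ := (hBEX P r R dg hSB).1 p.1.1 ((t + 1) / 2) (by rw [hp1]; linarith)
      (by linarith)
    obtain ⟨b, hb, hrb⟩ := (hBEX P r R dg hSB).1 q.1.1 ((t + 1) / 2) (by rw [hq1]; linarith)
      (by linarith)
    have ha2 : R t a = p.1.1 := by
      have := ha.2
      rw [hp1] at this
      exact this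
    have hb2 : R t b = q.1.1 := by
      have := hb.2
      rw [hq1] at this
      exact this
    have haW : a ∈ {y : P | t < r y ∧ R t y ∈ Vp} := by
      refine ⟨by rw [hra]; linarith, ?_⟩
      rw [ha2]
      exact ⟨p, mem_pathComponent_self p, rfl⟩
    have hbW : b ∈ {y : P | t < r y ∧ R t y ∈ Vp} := by
      refine ⟨by rw [hrb]; linarith, ?_⟩
      rw [hb2]
      exact ⟨q, hpq, rfl⟩
    have hWQ : {y : P | t < r y ∧ R t y ∈ Vp} ⊆ QS r R t O := by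
      rintro w ⟨_, v, _, hv⟩
      right
      have hv' : v.1.1 = R t w := hv
      rw [← hv']
      exact (hmemV v.1).1 v.2
    have hJ := hW.joinedIn a haW b hbW
    have hJQ := lift_join hJ hWQ A₁ᶜ (fun w hw h => absurd hw.1 (not_lt.2 h))
    refine ⟨⟨a, hWQ haW⟩, ⟨b, hWQ hbW⟩, haW.1.le, hbW.1.le, ?_, ?_, hJQ⟩
    · exact Subtype.ext (Subtype.ext ha2)
    · exact Subtype.ext (Subtype.ext hb2)
  -- paths off the line project to paths off the line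
  have hlt : ∀ q : ↥(QS r R t O), q ∈ (A₁ ∪ A₂)ᶜ → t < r q.1 := by
    intro q hq
    by_contra h
    exact hq (Or.inl (not_lt.1 h))
  have hsat : ∀ a b : ↥(QS r R t O), JoinedIn (A₁ ∪ A₂)ᶜ a b → ∀ (ha : t ≤ r a.1)
      (hb : t ≤ r b.1), JoinedIn (range ψ)ᶜ (prj a ha) (prj b hb) := by
    intro a b h ha hb
    obtain ⟨γ, hγ⟩ := h
    refine ⟨{ toFun := fun u => prj (γ u) (hlt _ (hγ u)).le
              continuous_toFun := ?_
              source' := ?_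
              target' := ?_ }, ?_⟩
    · exact ((hcR.comp (continuous_subtype_val.comp γ.continuous)).subtype_mk _).subtype_mk _
    · apply Subtype.ext
      apply Subtype.ext
      show R t (γ 0).1 = R t a.1
      rw [γ.source]
    · apply Subtype.ext
      apply Subtype.ext
      show R t (γ 1).1 = R t b.1
      rw [γ.target]
    · intro u hu
      exact hγ u (Or.inr ((hA₂m (γ u) (hlt _ (hγ u)).le).2 hu))
  set T' : Set ↥(QS r R t O) := {q | ∃ h : t ≤ r q.1, prj q h ∈ T} with hT'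
  have hT'm : ∀ (q : ↥(QS r R t O)) (hq : t ≤ r q.1), q ∈ T' ↔ prj q hq ∈ T :=
    fun q hq => ⟨fun ⟨_, h⟩ => h, fun h => ⟨hq, h⟩⟩
  have hT's : ∀ a b : ↥(QS r R t O), JoinedIn (A₁ ∪ A₂)ᶜ a b → (a ∈ T' ↔ b ∈ T') := by
    intro a b h
    have ha := (hlt a h.source_mem).le
    have hb := (hlt b h.target_mem).le
    rw [hT'm a ha, hT'm b hb]
    exact hT _ _ (hsat a b h ha hb)
  obtain ⟨a₀, b₀, ha₀, hb₀, ha₀T, hb₀T, hab0⟩ := hab
  obtain ⟨a₁, b₁, ha₁, hb₁, ea₁, eb₁, hJ₁⟩ := hjn a₀ b₀ hab0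
  obtain ⟨a, b, ha, hb, ea, eb, hJ⟩ := hjn x y hxy
  have key := core hMV hJOI hSDA A₁ A₂ hA₁c hA₂c hP ε hε T' hT's a₁ b₁ a b hJ₁
    (by rw [hA₂m a₁ ha₁, ea₁]; exact ha₀) (by rw [hA₂m b₁ hb₁, eb₁]; exact hb₀)
    (by rw [hT'm a₁ ha₁, ea₁]; exact ha₀T) (by rw [hT'm b₁ hb₁, eb₁]; exact hb₀T) hJ
    (by rw [hA₂m a ha, ea]; exact hx) (by rw [hA₂m b hb, eb]; exact hy)
    (by rw [hT'm a ha, hT'm b hb, ea, eb]; exact hiff)
  have hfin := hsat a b key ha hb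
  rw [ea, eb] at hfin
  exact hfin

end Pool.Agent.Helper26.SF
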